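import Pool.Agent.V11325.FlwAna

/-!
# MP_38b438_an: a trigonometric polynomial of degree 5 whose maximizing measures need 7 petals

For `f(x) = -5 cos 2πx + 8 sin 2πx - 11 cos 6πx + cos 10πx + 6 sin 10πx` no maximizing measure of
the doubling map is supported in a flower with at most 6 petals.
-/

namespace Pool.Agent.Results.MP_38b438_an.SevenPetals

open MeasureTheory Set Topology
open Pool.Agent.V11325.Flw

/-- the circle `ℝ/ℤ` -/
abbrev Circ : Type := UnitAddCircle

/-- the doubling map `x ↦ 2x mod 1` -/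
def dbl (x : Circ) : Circ := (2 : ℕ) • x

/-- the point `1/2` of the circle -/
noncomputable def half : Circ := ((1 / 2 : ℝ) : Circ)

/-- `X + 1/2` -/
def shift (X : Set Circ) : Set Circ := (fun x => x + half) '' X

/-- a closed non-degenerate arc -/
def IsArc (A : Set Circ) : Prop := ∃ a b : ℝ, a < b ∧ A = (fun t : ℝ => (t : Circ)) '' Icc a b

/-- a flower: a finite union of closed non-degenerate arcs such that
`X ∪ (X + 1/2)` is the circle and `X ∩ (X + 1/2)` is the boundary of `X` -/
structure IsFlower (X : Set Circ) : Prop where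
  arcs : ∃ (m : ℕ) (A : Fin m → Set Circ), (∀ i, IsArc (A i)) ∧ X = ⋃ i, A i
  cover : X ∪ shift X = univ
  bdry : X ∩ shift X = frontier X

/-- the petals of `X`: its connected components -/
def petals (X : Set Circ) : Set (Set Circ) := {C | ∃ x ∈ X, C = connectedComponentIn X x}

/-- real trigonometric polynomials of degree at most `n` with only odd frequencies -/
def OddTrig (n : ℕ) (f : Circ → ℝ) : Prop :=
  ∃ a b : ℕ → ℝ, ∀ t : ℝ, f (t : Circ) = ∑ k ∈ (Finset.range (n + 1)).filter Odd,
    (a k * Real.cos (2 * Real.pi * k * t) + b k * Real.sin (2 * Real.pi * k * t))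

/-- invariant Borel probability measures of the doubling map -/
structure IsInv (μ : Measure Circ) : Prop where
  prob : IsProbabilityMeasure μ
  inv : μ.map dbl = μ

/-- maximizing measures of `f` -/
def IsMaximizing (f : Circ → ℝ) (μ : Measure Circ) : Prop :=
  IsInv μ ∧ ∀ ν, IsInv ν → ∫ x, f x ∂ν ≤ ∫ x, f x ∂μ

/-! ### coordinates on the circle -/

/-- the representative in `[0,1)` -/
noncomputable def rep (x : Circ) : ℝ := (AddCircle.equivIco (1 : ℝ) 0 x : ℝ)

lemma rep_nonneg (x : Circ) : 0 ≤ rep x := (AddCircle.equivIco (1 : ℝ) 0 x).2.1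

lemma rep_lt_one (x : Circ) : rep x < 1 := by
  have := (AddCircle.equivIco (1 : ℝ) 0 x).2.2
  simpa [rep] using this

lemma coe_rep (x : Circ) : ((rep x : ℝ) : Circ) = x := AddCircle.coe_equivIco

lemma rep_coe {t : ℝ} (h0 : 0 ≤ t) (h1 : t < 1) : rep (t : Circ) = t := by
  unfold rep
  exact AddCircle.equivIco_coe_of_mem ⟨h0, by simpa using h1⟩

lemma coe_int (n : ℤ) : ((n : ℝ) : Circ) = 0 :=
  (AddCircle.coe_eq_zero_iff (1 : ℝ)).2 ⟨n, by simp⟩

lemma coe_fract (t : ℝ) : ((Int.fract t : ℝ) : Circ) = (t : Circ) := by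
  have h : t = Int.fract t + (⌊t⌋ : ℤ) := (Int.fract_add_floor t).symm
  conv_rhs => rw [h]
  rw [AddCircle.coe_add, coe_int, add_zero]

lemma rep_coe_fract (t : ℝ) : rep (t : Circ) = Int.fract t := by
  rw [← coe_fract t, rep_coe (Int.fract_nonneg t) (Int.fract_lt_one t)]

lemma measurable_rep : Measurable rep :=
  measurable_subtype_coe.comp (AddCircle.measurableEquivIco (1 : ℝ) 0).measurable

/-! ### the function -/

lemma F_sub_int (t : ℝ) (n : ℤ) : F (t - n) = F t := by
  unfold F
  have h1 : 2 * Real.pi * (t - n) = 2 * Real.pi * t - n * (2 * Real.pi) := by ring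
  have h3 : 6 * Real.pi * (t - n) = 6 * Real.pi * t - (3 * n : ℤ) * (2 * Real.pi) := by
    push_cast; ring
  have h5 : 10 * Real.pi * (t - n) = 10 * Real.pi * t - (5 * n : ℤ) * (2 * Real.pi) := by
    push_cast; ring
  rw [h1, h3, h5, Real.cos_sub_int_mul_two_pi, Real.cos_sub_int_mul_two_pi,
    Real.cos_sub_int_mul_two_pi, Real.sin_sub_int_mul_two_pi, Real.sin_sub_int_mul_two_pi]

/-- the potential on the circle -/
noncomputable def ff (x : Circ) : ℝ := F (rep x)

lemma ff_coe (t : ℝ) : ff (t : Circ) = F t := by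
  unfold ff
  rw [rep_coe_fract, Int.fract, F_sub_int]

lemma continuous_F : Continuous F := by unfold F; fun_prop

lemma continuous_ff : Continuous ff := by
  have hq : Topology.IsQuotientMap (fun t : ℝ => (t : Circ)) :=
    QuotientAddGroup.isQuotientMap_mk (AddSubgroup.zmultiples (1 : ℝ))
  rw [hq.continuous_iff]
  have : ff ∘ (fun t : ℝ => (t : Circ)) = F := funext ff_coe
  rw [this]
  exact continuous_F

lemma ff_oddTrig : OddTrig 5 ff := by
  refine ⟨fun k => if k = 1 then -5 else if k = 3 then -11 else 1,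
    fun k => if k = 1 then 8 else if k = 3 then 0 else 6, fun t => ?_⟩
  rw [ff_coe]
  have : (Finset.range (5 + 1)).filter Odd = {1, 3, 5} := by decide
  rw [this, Finset.sum_insert (by decide), Finset.sum_insert (by decide), Finset.sum_singleton]
  unfold F
  norm_num
  rw [show 2 * Real.pi * 3 * t = 6 * Real.pi * t by ring,
    show 2 * Real.pi * 5 * t = 10 * Real.pi * t by ring]
  ring

lemma continuous_dbl : Continuous dbl := continuous_nsmul 2

/-! ### cells -/

/-- the cell of length `1/4096` containing `x` -/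
noncomputable def cell (x : Circ) : ℕ := ⌊4096 * rep x⌋₊

lemma cell_lt (x : Circ) : cell x < 4096 := by
  unfold cell
  rw [Nat.floor_lt (by linarith [rep_nonneg x])]
  push_cast
  linarith [rep_lt_one x]

lemma cell_le (x : Circ) : (cell x : ℝ) / 4096 ≤ rep x := by
  have := Nat.floor_le (show 0 ≤ 4096 * rep x by linarith [rep_nonneg x])
  unfold cell
  linarith

lemma lt_cell (x : Circ) : rep x < ((cell x : ℝ) + 1) / 4096 := by
  have := Nat.lt_floor_add_one (4096 * rep x)
  unfold cell
  linarith

lemma measurable_cell : Measurable cell :=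
  Nat.measurable_floor.comp (measurable_rep.const_mul 4096)

lemma rep_dbl (x : Circ) : rep (dbl x) = Int.fract (2 * rep x) := by
  have : dbl x = ((2 * rep x : ℝ) : Circ) := by
    unfold dbl
    conv_lhs => rw [← coe_rep x]
    rw [two_mul, AddCircle.coe_add, two_nsmul]
  rw [this, rep_coe_fract]

lemma cell_dbl (x : Circ) : cell (dbl x) = (2 * cell x) % 4096 ∨ cell (dbl x) = (2 * cell x) % 4096 + 1 := by
  have h1 := cell_le x
  have h2 := lt_cell x
  have h3 := cell_le (dbl x)
  have h4 := lt_cell (dbl x)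
  have h5 := cell_lt (dbl x)
  have h6 := cell_lt x
  rw [rep_dbl, Int.fract] at h3 h4
  set k : ℤ := ⌊2 * rep x⌋ with hk
  have h7 : ((cell (dbl x) : ℤ) : ℝ) + 4096 * (k : ℝ) < 2 * (cell x : ℤ) + 2 := by
    push_cast; linarith
  have h8 : (2 * (cell x : ℤ) : ℝ) < (cell (dbl x) : ℤ) + 4096 * (k : ℝ) + 1 := by
    push_cast; linarith
  have h7' : (cell (dbl x) : ℤ) + 4096 * k < 2 * (cell x : ℤ) + 2 := by exact_mod_cast h7
  have h8' : 2 * (cell x : ℤ) < (cell (dbl x) : ℤ) + 4096 * k + 1 := by exact_mod_cast h8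
  omega

/-! ### the integral inequality -/

lemma phi_lt (c : Cert) (w : ℕ) : c.phi w < 4096 := Nat.mod_lt _ (by norm_num)

/-- the region of a certificate -/
def region (c : Cert) : Set Circ := {x | c.lo ≤ cell x ∧ cell x < c.hi}

lemma integral_le {ν : Measure Circ} (hν : IsInv ν) (c : Cert) (hc : c ∈ certs)
    (h0 : ν (region c) = 0) : ∫ x, ff x ∂ν ≤ beta := by
  haveI := hν.prob
  set g : Circ → ℝ := fun x => (c.phi (cell x) : ℝ) / 128 with hg
  have hgm : Measurable g := by
    have h1 : Measurable (fun n : ℕ => (c.phi n : ℝ) / 128) := measurable_from_nat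
    exact h1.comp measurable_cell
  have hgb : ∀ x, ‖g x‖ ≤ 32 := by
    intro x
    rw [hg]
    simp only [Real.norm_eq_abs]
    rw [abs_of_nonneg (by positivity)]
    have : (c.phi (cell x) : ℝ) < 4096 := by exact_mod_cast phi_lt c (cell x)
    linarith
  have hgi : Integrable g ν := Integrable.of_bound hgm.aestronglyMeasurable 32 (Filter.Eventually.of_forall hgb)
  have hgi2 : Integrable (fun x => g (dbl x)) ν :=
    Integrable.of_bound (hgm.comp continuous_dbl.measurable).aestronglyMeasurable 32
      (Filter.Eventually.of_forall fun x => hgb (dbl x))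
  have hfi : Integrable ff ν := by
    obtain ⟨C, hC⟩ := isCompact_univ.exists_bound_of_continuousOn (continuous_ff.continuousOn (s := univ))
    exact Integrable.of_bound continuous_ff.measurable.aestronglyMeasurable C
      (Filter.Eventually.of_forall fun x => hC x (mem_univ x))
  have hinv : ∫ x, g (dbl x) ∂ν = ∫ x, g x ∂ν := by
    have := integral_map (μ := ν) continuous_dbl.measurable.aemeasurable (f := g)
      (by rw [hν.inv]; exact hgm.aestronglyMeasurable)
    rw [hν.inv] at this
    exact this.symm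
  have hae : ∀ᵐ x ∂ν, ff x + g (dbl x) ≤ beta + g x := by
    have h1 : ∀ᵐ x ∂ν, x ∉ region c := by
      rw [ae_iff]
      simpa using h0
    filter_upwards [h1] with x hx
    exact num_main c hc (cell x) (cell_lt x) hx (rep x) (cell_le x) (lt_cell x).le (cell (dbl x)) (cell_dbl x)
  have hint := integral_mono_ae (hfi.add hgi2) ((integrable_const beta).add hgi) hae
  simp only [Pi.add_apply] at hint
  rw [integral_add hfi hgi2, integral_add (integrable_const beta) hgi, hinv, integral_const] at hint
  simp only [probReal_univ, one_smul] at hint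
  linarith

/-! ### the reference orbit -/

/-- the points of the 13-periodic orbit of `461/8191` -/
noncomputable def pt (i : Fin 13) : Circ := (((ms i : ℝ) / 8191 : ℝ) : Circ)

lemma ms_step : ∀ i : Fin 13, 2 * ms i = ms (i + 1) ∨ 2 * ms i = ms (i + 1) + 8191 := by decide

lemma dbl_pt (i : Fin 13) : dbl (pt i) = pt (i + 1) := by
  have h : dbl (pt i) = ((2 * ((ms i : ℝ) / 8191) : ℝ) : Circ) := by
    unfold dbl pt
    rw [two_mul, AddCircle.coe_add, two_nsmul]
  rw [h]
  unfold pt
  rcases ms_step i with h1 | h1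
  · have h2 : (2 * (ms i : ℝ)) = ms (i + 1) := by exact_mod_cast h1
    congr 1
    rw [← h2]; ring
  · have h2 : (2 * (ms i : ℝ)) = ms (i + 1) + 8191 := by exact_mod_cast h1
    have h3 : 2 * ((ms i : ℝ) / 8191) = (ms (i + 1) : ℝ) / 8191 + ((1 : ℤ) : ℝ) := by
      push_cast
      have : 2 * ((ms i : ℝ) / 8191) = (2 * (ms i : ℝ)) / 8191 := by ring
      rw [this, h2]; ring
    rw [h3, AddCircle.coe_add, coe_int, add_zero]

/-- the orbit measure -/
noncomputable def orb : Measure Circ := (13 : ENNReal)⁻¹ • ∑ i : Fin 13, Measure.dirac (pt i)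

lemma orb_inv : IsInv orb := by
  constructor
  · constructor
    unfold orb
    simp only [Measure.smul_apply, Measure.finsetSum_apply, measure_univ, Finset.sum_const,
      Finset.card_univ, Fintype.card_fin, smul_eq_mul]
    rw [nsmul_eq_mul, mul_one]
    exact ENNReal.inv_mul_cancel (by norm_num) (by norm_num)
  · unfold orb
    rw [Measure.map_smul]
    congr 1
    rw [← Measure.mapₗ_apply_of_measurable continuous_dbl.measurable, map_sum]
    simp only [Measure.mapₗ_apply_of_measurable continuous_dbl.measurable,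
      Measure.map_dirac' continuous_dbl.measurable, dbl_pt]
    exact Equiv.sum_comp (Equiv.addRight (1 : Fin 13)) (fun i => Measure.dirac (pt i))

lemma orb_integral : beta < ∫ x, ff x ∂orb := by
  unfold orb
  rw [integral_smul_measure, integral_finsetSum_measure]
  · simp only [integral_dirac]
    have h := ref_main
    have h2 : ∀ i, ff (pt i) = F ((ms i : ℝ) / 8191) := fun i => ff_coe _
    simp only [h2]
    rw [ENNReal.toReal_inv]
    simp only [smul_eq_mul]
    have : ((13 : ENNReal).toReal) = 13 := by norm_num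
    rw [this]
    linarith
  · intro i _
    exact integrable_dirac (by simp)

/-! ### existence of a maximizing measure -/

lemma exists_maximizing {f : Circ → ℝ} (hf : Continuous f) : ∃ μ, IsMaximizing f μ := by
  set S : Set (ProbabilityMeasure Circ) :=
    {ν | ν.map continuous_dbl.measurable.aemeasurable = ν} with hS
  have hcl : IsClosed S := isClosed_eq (ProbabilityMeasure.continuous_map continuous_dbl) continuous_id
  have hne : S.Nonempty := by
    haveI := orb_inv.prob
    refine ⟨⟨orb, orb_inv.prob⟩, ?_⟩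
    rw [hS]
    apply Subtype.ext
    exact orb_inv.inv
  set fb : BoundedContinuousFunction Circ ℝ := BoundedContinuousFunction.mkOfCompact ⟨f, hf⟩ with hfb
  obtain ⟨μ, hμ, hmax⟩ := hcl.isCompact.exists_isMaxOn hne
    (ProbabilityMeasure.continuous_integral_boundedContinuousFunction fb).continuousOn
  refine ⟨(μ : Measure Circ), ⟨inferInstance, ?_⟩, ?_⟩
  · have := congrArg (fun ν : ProbabilityMeasure Circ => (ν : Measure Circ)) hμ
    exact this
  · intro ν hν
    haveI := hν.prob
    have h1 : (⟨ν, hν.prob⟩ : ProbabilityMeasure Circ) ∈ S := by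
      rw [hS]
      apply Subtype.ext
      exact hν.inv
    exact hmax h1

/-! ### topology of flowers -/

lemma half_add_half : half + half = 0 := by
  unfold half
  rw [← AddCircle.coe_add]
  have h1 : (1 / 2 + 1 / 2 : ℝ) = ((1 : ℤ) : ℝ) := by norm_num
  rw [h1, coe_int]

lemma isOpen_image_Ioo (a b : ℝ) : IsOpen ((fun t : ℝ => (t : Circ)) '' Ioo a b) :=
  QuotientAddGroup.isOpenMap_coe _ isOpen_Ioo

lemma flower_avoid {X : Set Circ} (hX : IsFlower X) {p : Circ} (hp : p ∈ shift X) {U : Set Circ}
    (hU : IsOpen U) (hpU : p ∈ U) : ∃ q ∈ U, q ∉ X := by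
  obtain ⟨x, hx, rfl⟩ := hp
  obtain ⟨m, A, hA, hXA⟩ := hX.arcs
  rw [hXA, mem_iUnion] at hx
  obtain ⟨i, hi⟩ := hx
  obtain ⟨a, b, hab, hAi⟩ := hA i
  rw [hAi] at hi
  have hV : IsOpen ((fun x : Circ => x + half) ⁻¹' U) := hU.preimage (continuous_add_const half)
  have hcl : x ∈ closure ((fun t : ℝ => (t : Circ)) '' Ioo a b) := by
    obtain ⟨t, ht, rfl⟩ := hi
    have h1 : t ∈ closure (Ioo a b) := by rw [closure_Ioo hab.ne]; exact ht
    exact image_closure_subset_closure_image (AddCircle.continuous_mk' (1:ℝ)) ⟨t, h1, rfl⟩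
  obtain ⟨y, hyU, hy⟩ := mem_closure_iff.1 hcl _ hV hpU
  refine ⟨y + half, hyU, fun hq => ?_⟩
  have hyX : (fun t : ℝ => (t : Circ)) '' Ioo a b ⊆ X := by
    rw [hXA]
    refine subset_trans ?_ (subset_iUnion A i)
    rw [hAi]
    exact image_mono Ioo_subset_Icc_self
  have hint : y ∈ interior X := interior_maximal hyX (isOpen_image_Ioo a b) hy
  have hsh : y ∈ shift X := ⟨y + half, hq, by
    show y + half + half = y
    rw [add_assoc, half_add_half, add_zero]⟩
  have hfr : y ∈ frontier X := by
    rw [← hX.bdry]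
    exact ⟨hyX hy, hsh⟩
  exact hfr.2 hint

lemma sep {C : Set Circ} (hC : IsPreconnected C) {a b p q : ℝ} (h1 : q - 1 < a) (h2 : a < p)
    (h3 : p < b) (h4 : b < q) (ha : (a : Circ) ∈ C) (hb : (b : Circ) ∈ C) (hp : (p : Circ) ∉ C)
    (hq : (q : Circ) ∉ C) : False := by
  set u : Set Circ := (fun t : ℝ => (t : Circ)) '' Ioo (q - 1) p with hu
  set v : Set Circ := (fun t : ℝ => (t : Circ)) '' Ioo p q with hv
  have hdis : Disjoint u v := by
    rw [Set.disjoint_left]
    rintro x ⟨s, hs, rfl⟩ ⟨t, ht, hst⟩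
    have hst' : ((t : ℝ) : Circ) = ((s : ℝ) : Circ) := hst
    have := (AddCircle.coe_eq_coe_iff_of_mem_Ico (p := (1:ℝ)) (a := q - 1) (x := t) (y := s)
      ⟨by linarith [ht.1, hs.1, hs.2], by linarith [ht.2]⟩ ⟨hs.1.le, by linarith [hs.2, ht.1, ht.2]⟩).1 hst'
    linarith [ht.1, hs.2]
  have hcov : C ⊆ u ∪ v := by
    intro x hx
    have hxr := (AddCircle.coe_equivIco (p := (1:ℝ)) (a := q - 1) (y := x))
    obtain ⟨hr1, hr2⟩ := (AddCircle.equivIco (1:ℝ) (q - 1) x).2
    set r : ℝ := (AddCircle.equivIco (1:ℝ) (q - 1) x : ℝ) with hr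
    have hne1 : r ≠ q - 1 := by
      intro h
      apply hq
      have : ((q : ℝ) : Circ) = x := by
        rw [← hxr, h]
        have h5 : q = (q - 1) + ((1 : ℤ) : ℝ) := by push_cast; ring
        conv_lhs => rw [h5]
        rw [AddCircle.coe_add, coe_int, add_zero]
      rw [this]; exact hx
    have hne2 : r ≠ p := by
      intro h
      apply hp
      rw [← h, hxr]; exact hx
    rcases lt_or_gt_of_ne hne2 with h | h
    · left; exact ⟨r, ⟨lt_of_le_of_ne hr1 hne1.symm, h⟩, hxr⟩
    · right; exact ⟨r, ⟨h, by linarith⟩, hxr⟩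
  have hsub : C ⊆ u := hC.subset_left_of_subset_union (isOpen_image_Ioo _ _) (isOpen_image_Ioo _ _)
    hdis hcov ⟨(a : Circ), ha, ⟨a, ⟨h1, h2⟩, rfl⟩⟩
  exact Set.disjoint_left.1 hdis (hsub hb) ⟨b, ⟨h3, h4⟩, rfl⟩

/-- two points of a flower that are separated by two points of the shifted flower lie in different
components -/
lemma diff_comp {X : Set Circ} (hX : IsFlower X) {x y : Circ} {p q : ℝ}
    (h2 : rep x < p) (h3 : p < rep y) (h4 : rep y < q) (h1 : q - 1 < rep x)
    (hx : x ∈ X) (hy : y ∈ X) (hp : (p : Circ) ∈ shift X) (hq : (q : Circ) ∈ shift X) :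
    connectedComponentIn X x ≠ connectedComponentIn X y := by
  intro hxy
  set C := connectedComponentIn X x with hC
  have hCp : IsPreconnected C := isPreconnected_connectedComponentIn
  have hCX : C ⊆ X := connectedComponentIn_subset X x
  have hxC : x ∈ C := mem_connectedComponentIn hx
  have hyC : y ∈ C := by rw [hxy]; exact mem_connectedComponentIn hy
  obtain ⟨p', ⟨s, hs, rfl⟩, hps⟩ := flower_avoid hX hp (isOpen_image_Ioo (rep x) (rep y)) ⟨p, ⟨h2, h3⟩, rfl⟩
  obtain ⟨q', ⟨t, ht, rfl⟩, hqt⟩ := flower_avoid hX hq (isOpen_image_Ioo (rep y) (rep x + 1)) ⟨q, ⟨h4, by linarith⟩, rfl⟩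
  refine sep hCp (a := rep x) (b := rep y) (p := s) (q := t) (by linarith [ht.2]) hs.1 hs.2 ht.1 ?_ ?_ ?_ ?_
  · rw [coe_rep]; exact hxC
  · rw [coe_rep]; exact hyC
  · exact fun h => hps (hCX h)
  · exact fun h => hqt (hCX h)

/-! ### the main theorem -/

/-- the certificate of petal `i` -/
def ct (i : Fin 7) : Cert := certs.get ⟨i.1, by simpa [certs] using i.2⟩

lemma ct_mem (i : Fin 7) : ct i ∈ certs := List.get_mem _ _

/-- left end points (in units of `1/4096`) -/
def los : Fin 7 → ℕ := ![176, 440, 688, 1656, 2376, 2552, 3208]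
/-- right end points (in units of `1/4096`) -/
def his : Fin 7 → ℕ := ![328, 504, 1160, 2224, 2488, 2736, 3704]

lemma ct_lo : ∀ i : Fin 7, (ct i).lo = los i := by
  intro i; fin_cases i <;> rfl
lemma ct_hi : ∀ i : Fin 7, (ct i).hi = his i := by
  intro i; fin_cases i <;> rfl

lemma ff_ne_zero : ff ≠ 0 := by
  intro h
  have h1 := orb_integral
  rw [h] at h1
  simp only [Pi.zero_apply, integral_zero] at h1
  unfold beta at h1
  norm_num at h1

theorem seven {μ : Measure Circ} (hμ : IsMaximizing ff μ) {X : Set Circ} (hX : IsFlower X)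
    (hs : μ.support ⊆ X) : 7 ≤ (petals X).encard := by
  have hpos : ∀ i : Fin 7, 0 < μ (region (ct i)) := by
    intro i
    by_contra hcon
    have h0 : μ (region (ct i)) = 0 := by simpa using hcon
    have h1 := integral_le hμ.1 (ct i) (ct_mem i) h0
    have h2 := hμ.2 orb orb_inv
    linarith [orb_integral]
  have hy : ∀ i : Fin 7, ∃ y : Circ, y ∈ X ∧ (los i : ℝ) / 4096 ≤ rep y ∧ rep y < (his i : ℝ) / 4096 := by
    intro i
    obtain ⟨y, hy1, hy2⟩ := Measure.nonempty_inter_support_of_pos (hpos i)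
    refine ⟨y, hs hy2, ?_, ?_⟩
    · have h1 := cell_le y
      have h2 : (los i : ℝ) ≤ cell y := by rw [← ct_lo]; exact_mod_cast hy1.1
      linarith
    · have h1 := lt_cell y
      have h2 : (cell y : ℝ) + 1 ≤ his i := by
        rw [← ct_hi]
        have := hy1.2
        exact_mod_cast this
      linarith
  choose y hyX hylo hyhi using hy
  -- the points y i + 1/2
  have hsh : ∀ i : Fin 7, ((rep (y i) + 1 / 2 : ℝ) : Circ) ∈ shift X := by
    intro i
    refine ⟨y i, hyX i, ?_⟩
    show y i + half = _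
    rw [AddCircle.coe_add, coe_rep]
    rfl
  have hsh' : ∀ i : Fin 7, ((rep (y i) - 1 / 2 : ℝ) : Circ) ∈ shift X := by
    intro i
    have := hsh i
    have h2 : rep (y i) + 1 / 2 = (rep (y i) - 1 / 2) + ((1 : ℤ) : ℝ) := by push_cast; ring
    rw [h2, AddCircle.coe_add, coe_int, add_zero] at this
    exact this
  have L0 := hylo 0
  have L1 := hylo 1
  have L2 := hylo 2
  have L3 := hylo 3
  have L4 := hylo 4
  have L5 := hylo 5
  have L6 := hylo 6
  have H0 := hyhi 0
  have H1 := hyhi 1
  have H2 := hyhi 2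
  have H3 := hyhi 3
  have H4 := hyhi 4
  have H5 := hyhi 5
  have H6 := hyhi 6
  simp only [los, his, Matrix.cons_val_zero, Matrix.cons_val_one, Matrix.cons_val, Matrix.head_cons, Nat.cast_ofNat] at L0 L1 L2 L3 L4 L5 L6 H0 H1 H2 H3 H4 H5 H6
  -- separating points: `sp i` lies in the arc following the arc of `y i`
  have hsp : ∀ i : Fin 7, ∃ p : ℝ, (p : Circ) ∈ shift X ∧ (his i : ℝ) / 4096 ≤ p ∧
      (∀ j : Fin 7, i < j → p < (los j : ℝ) / 4096) ∧ (∀ j : Fin 7, p - 1 < (los j : ℝ) / 4096) := by
    intro i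
    fin_cases i
    · refine ⟨rep (y 4) - 1 / 2, hsh' 4, ?_, ?_, ?_⟩
      · norm_num [his]; linarith
      · intro j hj
        fin_cases j <;> first | (exact absurd hj (by decide)) | (norm_num [los]; linarith)
      · intro j
        fin_cases j <;> (norm_num [los]; linarith)
    · refine ⟨rep (y 5) - 1 / 2, hsh' 5, ?_, ?_, ?_⟩
      · norm_num [his]; linarith
      · intro j hj
        fin_cases j <;> first | (exact absurd hj (by decide)) | (norm_num [los]; linarith)
      · intro j
        fin_cases j <;> (norm_num [los]; linarith)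
    · refine ⟨rep (y 6) - 1 / 2, hsh' 6, ?_, ?_, ?_⟩
      · norm_num [his]; linarith
      · intro j hj
        fin_cases j <;> first | (exact absurd hj (by decide)) | (norm_num [los]; linarith)
      · intro j
        fin_cases j <;> (norm_num [los]; linarith)
    · refine ⟨rep (y 0) + 1 / 2, hsh 0, ?_, ?_, ?_⟩
      · norm_num [his]; linarith
      · intro j hj
        fin_cases j <;> first | (exact absurd hj (by decide)) | (norm_num [los]; linarith)
      · intro j
        fin_cases j <;> (norm_num [los]; linarith)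
    · refine ⟨rep (y 1) + 1 / 2, hsh 1, ?_, ?_, ?_⟩
      · norm_num [his]; linarith
      · intro j hj
        fin_cases j <;> first | (exact absurd hj (by decide)) | (norm_num [los]; linarith)
      · intro j
        fin_cases j <;> (norm_num [los]; linarith)
    · refine ⟨rep (y 2) + 1 / 2, hsh 2, ?_, ?_, ?_⟩
      · norm_num [his]; linarith
      · intro j hj
        fin_cases j <;> first | (exact absurd hj (by decide)) | (norm_num [los]; linarith)
      · intro j
        fin_cases j <;> (norm_num [los]; linarith)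
    · refine ⟨rep (y 3) + 1 / 2, hsh 3, ?_, ?_, ?_⟩
      · norm_num [his]; linarith
      · intro j hj
        fin_cases j <;> first | (exact absurd hj (by decide)) | (norm_num [los]; linarith)
      · intro j
        fin_cases j <;> (norm_num [los]; linarith)
  have hne : ∀ i j : Fin 7, i < j → connectedComponentIn X (y i) ≠ connectedComponentIn X (y j) := by
    intro i j hij
    obtain ⟨p, hp1, hp2, hp3, -⟩ := hsp i
    obtain ⟨q, hq1, hq2, -, hq4⟩ := hsp j
    exact diff_comp hX (lt_of_lt_of_le (hyhi i) hp2) (lt_of_lt_of_le (hp3 j hij) (hylo j))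
      (lt_of_lt_of_le (hyhi j) hq2) (lt_of_lt_of_le (hq4 i) (hylo i)) (hyX i) (hyX j) hp1 hq1
  have hinj : Function.Injective (fun i : Fin 7 => connectedComponentIn X (y i)) := by
    intro i j hij
    by_contra hcon
    rcases lt_or_gt_of_ne hcon with h | h
    · exact hne i j h hij
    · exact hne j i h hij.symm
  have hsub : range (fun i : Fin 7 => connectedComponentIn X (y i)) ⊆ petals X := by
    rintro C ⟨i, rfl⟩
    exact ⟨y i, hyX i, rfl⟩
  calc (7 : ℕ∞) = (range (fun i : Fin 7 => connectedComponentIn X (y i))).encard := by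
        rw [← image_univ, hinj.encard_image]
        simp
    _ ≤ (petals X).encard := encard_le_encard hsub

/-- the conjecture (Q1 of the problem) -/
def FlowerConjecture : Prop :=
  ∀ n : ℕ, Odd n → ∀ f : Circ → ℝ, OddTrig n f → f ≠ 0 → ∀ μ, IsMaximizing f μ →
    ∃ X, IsFlower X ∧ (petals X).encard ≤ n ∧ μ.support ⊆ X

theorem result :
    (∃ f : Circ → ℝ, OddTrig 5 f ∧ f ≠ 0 ∧
      (∀ t : ℝ, f (t : Circ) = -5 * Real.cos (2 * Real.pi * t) + 8 * Real.sin (2 * Real.pi * t)
        - 11 * Real.cos (6 * Real.pi * t) + Real.cos (10 * Real.pi * t)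
        + 6 * Real.sin (10 * Real.pi * t)) ∧
      (∃ μ, IsMaximizing f μ) ∧
      ∀ μ, IsMaximizing f μ → ∀ X, IsFlower X → μ.support ⊆ X → 7 ≤ (petals X).encard) ∧
    ¬ FlowerConjecture := by
  refine ⟨⟨ff, ff_oddTrig, ff_ne_zero, fun t => ff_coe t, exists_maximizing continuous_ff,
    fun μ hμ X hX hs => seven hμ hX hs⟩, ?_⟩
  intro hcon
  obtain ⟨μ, hμ⟩ := exists_maximizing continuous_ff
  obtain ⟨X, hX, hcard, hs⟩ := hcon 5 (by decide) ff ff_oddTrig ff_ne_zero μ hμ
  have := (seven hμ hX hs).trans hcard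
  exact absurd this (by decide)

end Pool.Agent.Results.MP_38b438_an.SevenPetals
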